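import Mathlib
import Pool.Graph.R_seed8.H297.GraphVersion

set_option autoImplicit false

namespace Pool.Agent.Results.MP_ad96ef_co.ExponentOrder

open Finset SimpleGraph

/-- Any two members of `F` share a copy of `H`. -/
def Intersecting {W : Type*} (H : SimpleGraph W) {n : ℕ} (F : Finset (SimpleGraph (Fin n))) : Prop :=
  ∀ G₁ ∈ F, ∀ G₂ ∈ F, H.IsContained (G₁ ⊓ G₂)

theorem hasCore {V W : Type*} [Fintype W] [Nonempty W] (H : SimpleGraph W) [DecidableRel H.Adj]
    (G : SimpleGraph V) (k : ℕ) (hk : ∀ v, k ≤ H.degree v) (h : H.IsContained G) :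
    Pool.Agent.H297.HasCore G k := by
  classical
  obtain ⟨f⟩ := h
  have hinj : Function.Injective f.toHom := f.injective
  refine ⟨univ.image f.toHom, ⟨f.toHom (Classical.arbitrary W), mem_image_of_mem _ (mem_univ _)⟩, ?_⟩
  intro v hv
  obtain ⟨x, _, rfl⟩ := mem_image.1 hv
  refine ⟨(H.neighborFinset x).image f.toHom, image_subset_image (subset_univ _), ?_, ?_⟩
  · rw [card_image_of_injective _ hinj, SimpleGraph.card_neighborFinset_eq_degree]
    exact hk x
  · intro u hu
    obtain ⟨y, hy, rfl⟩ := mem_image.1 hu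
    exact f.toHom.map_adj ((H.mem_neighborFinset x y).1 hy)

theorem upper {W : Type*} [Fintype W] [Nonempty W] (H : SimpleGraph W) [DecidableRel H.Adj]
    (k : ℕ) (hk1 : 1 ≤ k) (hk : ∀ v, k ≤ H.degree v) (n : ℕ) (F : Finset (SimpleGraph (Fin n)))
    (hF : Intersecting H F) :
    (F.card : ℝ) ≤ (2 : ℝ) ^ ((n.choose 2 : ℝ) - (k : ℝ) ^ 2 / 2 ^ 20) := by
  have h := Pool.Agent.H297.graph_families_bound k hk1 F
    (fun G hG G' hG' => hasCore H (G ⊓ G') k hk (hF G hG G' hG'))
  rwa [Fintype.card_fin] at h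

/-- All graphs containing a fixed graph `K`. -/
theorem lower {W : Type*} [Fintype W] (H : SimpleGraph W) [DecidableRel H.Adj] (n : ℕ)
    (hn : Fintype.card W ≤ n) :
    ∃ F : Finset (SimpleGraph (Fin n)), Intersecting H F ∧
      F.card = 2 ^ (n.choose 2 - H.edgeFinset.card) := by
  classical
  obtain ⟨φ⟩ : Nonempty (W ↪ Fin n) := Function.Embedding.nonempty_of_card_le (by simpa using hn)
  set K : SimpleGraph (Fin n) := H.map φ with hK
  have hKc : K.edgeFinset.card = H.edgeFinset.card := by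
    convert SimpleGraph.card_edgeFinset_map φ H
  set E : Finset (Sym2 (Fin n)) := (⊤ : SimpleGraph (Fin n)).edgeFinset \ K.edgeFinset with hE
  have hEc : E.card = n.choose 2 - H.edgeFinset.card := by
    rw [hE, card_sdiff_of_subset (SimpleGraph.edgeFinset_mono le_top),
      SimpleGraph.card_edgeFinset_top_eq_card_choose_two, Fintype.card_fin, hKc]
  let g : Finset (Sym2 (Fin n)) → SimpleGraph (Fin n) := fun s => K ⊔ fromEdgeSet (s : Set _)
  have hedge : ∀ s ∈ E.powerset, (g s).edgeSet = K.edgeSet ∪ s := by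
    intro s hs
    rw [mem_powerset] at hs
    show (K ⊔ fromEdgeSet (s : Set _)).edgeSet = _
    rw [edgeSet_sup, edgeSet_fromEdgeSet]
    congr 1
    rw [sdiff_eq_left, Set.disjoint_left]
    intro e he hd
    have h1 := hs he
    rw [hE, mem_sdiff, mem_edgeFinset] at h1
    exact (not_isDiag_of_mem_edgeSet _ h1.1) hd
  have hinj : Set.InjOn g (E.powerset : Finset _) := by
    intro s hs s' hs' h
    have h1 := hedge s hs
    have h2 := hedge s' hs'
    rw [h, h2] at h1
    have hs1 := mem_powerset.1 (mem_coe.1 hs)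
    have hs2 := mem_powerset.1 (mem_coe.1 hs')
    ext e
    have h3 : e ∈ K.edgeSet ∪ (s' : Set _) ↔ e ∈ K.edgeSet ∪ (s : Set _) := by rw [h1]
    have h4 : ∀ t : Finset (Sym2 (Fin n)), t ⊆ E → e ∈ t → e ∉ K.edgeSet := by
      intro t ht he
      have := ht he
      rw [hE, mem_sdiff, mem_edgeFinset, mem_edgeFinset] at this
      exact this.2
    simp only [Set.mem_union, mem_coe] at h3
    constructor
    · intro he
      exact (h3.2 (Or.inr he)).resolve_left (h4 s hs1 he)
    · intro he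
      exact (h3.1 (Or.inr he)).resolve_left (h4 s' hs2 he)
  refine ⟨E.powerset.image g, ?_, ?_⟩
  · intro G₁ h1 G₂ h2
    obtain ⟨s, -, rfl⟩ := mem_image.1 h1
    obtain ⟨s', -, rfl⟩ := mem_image.1 h2
    have hKH : H.IsContained K := ⟨⟨(SimpleGraph.Embedding.map φ H).toHom, φ.injective⟩⟩
    exact hKH.mono_right (le_inf le_sup_left le_sup_left)
  · rw [card_image_of_injOn hinj, card_powerset, hEc]

theorem degree_bip (t : ℕ) (v : Fin t ⊕ Fin t) [DecidableRel (completeBipartiteGraph (Fin t) (Fin t)).Adj] :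
    (completeBipartiteGraph (Fin t) (Fin t)).degree v = t := by
  classical
  rw [← card_neighborFinset_eq_degree]
  rcases v with i | i
  · have : (completeBipartiteGraph (Fin t) (Fin t)).neighborFinset (Sum.inl i) =
        univ.image (Sum.inr : Fin t → Fin t ⊕ Fin t) := by
      ext w
      rw [mem_neighborFinset]
      rcases w with w | w <;> simp
    rw [this, card_image_of_injective _ Sum.inr_injective, card_univ, Fintype.card_fin]
  · have : (completeBipartiteGraph (Fin t) (Fin t)).neighborFinset (Sum.inr i) =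
        univ.image (Sum.inl : Fin t → Fin t ⊕ Fin t) := by
      ext w
      rw [mem_neighborFinset]
      rcases w with w | w <;> simp
    rw [this, card_image_of_injective _ Sum.inl_injective, card_univ, Fintype.card_fin]

open Classical in
theorem edges_bip (t : ℕ) : (completeBipartiteGraph (Fin t) (Fin t)).edgeFinset.card = t ^ 2 := by
  have h := (completeBipartiteGraph (Fin t) (Fin t)).sum_degrees_eq_twice_card_edges
  simp only [degree_bip, sum_const, card_univ, Fintype.card_sum, Fintype.card_fin,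
    smul_eq_mul] at h
  refine Nat.eq_of_mul_eq_mul_left two_pos (h.symm.trans ?_)
  ring

open Classical in
/-- For every finite graph `H` of minimum degree at least `k ≥ 1`, `H`-intersecting families have at
most `2 ^ (C(n,2) - k²/2²⁰)` members; for `H = K_{t,t}` this is sharp up to the constant `2²⁰`. -/
theorem result :
    (∀ (W : Type) [Fintype W] [Nonempty W] (H : SimpleGraph W) (k : ℕ), 1 ≤ k →
      (∀ v, k ≤ H.degree v) → ∀ (n : ℕ) (F : Finset (SimpleGraph (Fin n))), Intersecting H F →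
        (F.card : ℝ) ≤ (2 : ℝ) ^ ((n.choose 2 : ℝ) - (k : ℝ) ^ 2 / 2 ^ 20)) ∧
    (∀ t : ℕ, 1 ≤ t → ∀ (n : ℕ) (F : Finset (SimpleGraph (Fin n))),
      Intersecting (completeBipartiteGraph (Fin t) (Fin t)) F →
        (F.card : ℝ) ≤ (2 : ℝ) ^ ((n.choose 2 : ℝ) - (t : ℝ) ^ 2 / 2 ^ 20)) ∧
    (∀ t n : ℕ, 2 * t ≤ n → ∃ F : Finset (SimpleGraph (Fin n)),
      Intersecting (completeBipartiteGraph (Fin t) (Fin t)) F ∧
        F.card = 2 ^ (n.choose 2 - t ^ 2)) ∧
    (∀ t : ℕ, 1025 ≤ t → ∃ c : ℝ, 0 < c ∧ c = 1 - 2 ^ (1 - (t : ℝ) ^ 2 / 2 ^ 20) ∧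
      ∀ (n : ℕ) (F : Finset (SimpleGraph (Fin n))),
      Intersecting (completeBipartiteGraph (Fin t) (Fin t)) F →
        (F.card : ℝ) ≤ (1 - c) * (2 : ℝ) ^ ((n.choose 2 : ℝ) - 1)) := by
  have hup : ∀ t : ℕ, 1 ≤ t → ∀ (n : ℕ) (F : Finset (SimpleGraph (Fin n))),
      Intersecting (completeBipartiteGraph (Fin t) (Fin t)) F →
        (F.card : ℝ) ≤ (2 : ℝ) ^ ((n.choose 2 : ℝ) - (t : ℝ) ^ 2 / 2 ^ 20) := by
    intro t ht n F hF
    have : Nonempty (Fin t ⊕ Fin t) := ⟨Sum.inl ⟨0, ht⟩⟩
    exact upper _ t ht (fun v => (degree_bip t v).ge) n F hF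
  refine ⟨fun W _ _ H k hk1 hk n F hF => upper H k hk1 hk n F hF, hup, fun t n hn => ?_,
    fun t ht => ?_⟩
  · obtain ⟨F, h1, h2⟩ := lower (completeBipartiteGraph (Fin t) (Fin t)) n
      (by simp only [Fintype.card_sum, Fintype.card_fin]; omega)
    refine ⟨F, h1, h2.trans ?_⟩
    congr 2
    exact edges_bip t
  · have ht' : (1025 : ℝ) ≤ t := by exact_mod_cast ht
    have h1 : (1 : ℝ) - (t : ℝ) ^ 2 / 2 ^ 20 < 0 := by
      have : (1025 : ℝ) ^ 2 ≤ (t : ℝ) ^ 2 := by gcongr
      have h2 : (1 : ℝ) < (t : ℝ) ^ 2 / 2 ^ 20 := by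
        rw [lt_div_iff₀ (by positivity)]
        norm_num at this ⊢
        linarith
      linarith
    refine ⟨_, ?_, rfl, fun n F hF => ?_⟩
    · have := Real.rpow_lt_one_of_one_lt_of_neg (by norm_num : (1 : ℝ) < 2) h1
      linarith
    · refine (hup t (by omega) n F hF).trans (le_of_eq ?_)
      rw [sub_sub_cancel, ← Real.rpow_add (by norm_num)]
      congr 1
      ring

end Pool.Agent.Results.MP_ad96ef_co.ExponentOrder
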